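import Pool.Agent.Lib.MP_bfa5ed_co.Final
import Pool.Agent.Lib.MP_bfa5ed_co.WellDef

open Pool.Agent.Lib.MP_bfa5ed_co

namespace Pool.Agent.Results.MP_bfa5ed_co.CubeRoot

theorem result : ∃ n₀ : ℕ, ∀ n : ℕ, n₀ ≤ n →
    (n : ℝ) ^ (1 / 3 : ℝ) / Real.log n ^ 2 < (sInf {k : ℕ | Colourable (EuclideanSpace ℝ (Fin 2)) n k} : ℕ) := by
  obtain ⟨n₀, h⟩ := final
  refine ⟨max n₀ 2, fun n hn => h n ((le_max_left _ _).trans hn) _ ?_⟩
  exact Nat.sInf_mem (s := {k : ℕ | Colourable (EuclideanSpace ℝ (Fin 2)) n k})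
    ⟨n, colourable_self ((le_max_right _ _).trans hn)⟩

end Pool.Agent.Results.MP_bfa5ed_co.CubeRoot
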